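import Mathlib

/-! The explicit quantity that computes the uniform exponents for monic polynomials. -/

namespace Pool.Agent.Lib.MP_1639aa_nt

/-- For `r = p / q` in lowest terms: the distance from `p ^ n / q` to the nearest integer,
divided by `q ^ (n - 1)`. -/
noncomputable def resid (n : ℕ) (r : ℚ) : ℝ :=
  |(r.num : ℝ) ^ n / r.den - round ((r.num : ℝ) ^ n / r.den)| / (r.den : ℝ) ^ (n - 1)

/-- The supremum of the `v ≥ 0` such that `resid n r ^ (1 + v) ≤ |ζ - r| ^ v` for all rational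
numbers `r` with large denominator. -/
noncomputable def phi (n : ℕ) (ζ : ℝ) : EReal :=
  sSup (Real.toEReal '' {v : ℝ | 0 ≤ v ∧ ∃ Q : ℕ, ∀ r : ℚ, Q ≤ r.den →
    resid n r ^ (1 + v) ≤ |ζ - r| ^ v})

end Pool.Agent.Lib.MP_1639aa_nt
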