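import Pool.Agent.Lib.MP_1639aa_nt.Fm.Root

/-! The two uniform exponents lie between `min 1 (phi n ζ)` and `phi n ζ`. -/

namespace Pool.Agent.Lib.MP_1639aa_nt.Fm

open Polynomial Filter

lemma le_sSup_of (S : Set ℝ) (v a : ℝ) (ha : a < v) (h2 : ∀ x, a < x → x < v → x ∈ S) :
    (v : EReal) ≤ sSup (Real.toEReal '' S) := by
  by_contra hlt
  obtain ⟨x, hx1, hx2⟩ := EReal.lt_iff_exists_real_btwn.mp (not_le.1 hlt)
  have hx2' : x < v := EReal.coe_lt_coe_iff.mp hx2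
  have hy : max x ((a + v) / 2) ∈ S :=
    h2 _ (lt_max_of_lt_right (by linarith)) (max_lt hx2' (by linarith))
  have h3 : ((max x ((a + v) / 2) : ℝ) : EReal) ≤ sSup (Real.toEReal '' S) :=
    le_sSup ⟨_, hy, rfl⟩
  exact absurd (hx1.trans_le ((EReal.coe_le_coe_iff.mpr (le_max_left _ _)).trans h3)) (lt_irrefl _)

/-- The upper bound: uniform approximation with exponent `x` forces the condition for `v < x`. -/
lemma cond_of {n : ℕ} (hn : 2 ≤ n) {ζ : ℝ} (hζ : Irrational ζ) {C x v : ℝ} (v0 : 0 < v)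
    (hx : v < x) (h : ∀ᶠ X : ℝ in atTop, ∃ P : ℤ[X], P.Monic ∧ P.natDegree ≤ n ∧ P.supNorm ≤ X ∧
      |aeval ζ P| ≤ C * X ^ (-x)) :
    ∃ Q : ℕ, ∀ r : ℚ, Q ≤ r.den → resid n r ^ (1 + v) ≤ |ζ - r| ^ v := by
  obtain ⟨B, hBd⟩ : ∃ B, B = |ζ| + 1 := ⟨_, rfl⟩
  have hB : 1 ≤ B := by linarith [abs_nonneg ζ]
  have hL := one_le_lipC n hB
  set L := lipC n B with hLd
  obtain ⟨X0, hX0⟩ := eventually_atTop.1
    (h.and (ev_pow (2 * C * (2 * L) ^ v) (-x) (-v) (by linarith)))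
  obtain ⟨ε, hε, hsm⟩ : ∃ ε : ℝ, 0 < ε ∧ ∀ Y : ℝ, 0 < Y → Y ^ (-v) < ε → 2 * L * X0 ≤ Y := by
    refine ⟨(max 1 (2 * L * X0)) ^ (-v), by positivity, fun Y hY h1 => ?_⟩
    by_contra h2
    exact absurd (Real.rpow_le_rpow_of_nonpos hY ((not_le.1 h2).le.trans (le_max_right 1 _))
      (by linarith)) (not_le.2 h1)
  obtain ⟨Q, hQ⟩ := exists_nat_gt (1 / ε)
  refine ⟨max Q 2, fun r hr => ?_⟩
  by_contra hc
  have hc := not_le.1 hc
  have hq := den_one r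
  have hq2 : 2 ≤ r.den := (le_max_right _ _).trans hr
  have hqQ : (Q : ℝ) ≤ r.den := by exact_mod_cast (le_max_left _ _).trans hr
  have ha0 : 0 < resid n r := lt_of_lt_of_le (by positivity) (le_resid n (by omega) r hq2)
  have ha1 := resid_le_one n r
  have haε : resid n r < ε := by
    refine (resid_le n r).trans_lt ?_
    rw [one_div_lt (by positivity) hε]
    exact hQ.trans_le (hqQ.trans (le_self_pow₀ hq (by omega)))
  have hδ0 : 0 < |ζ - r| := abs_pos.2 (sub_ne_zero.2 (hζ.ne_rat r))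
  have hY0 : 0 < resid n r / |ζ - r| := by positivity
  have hY : (resid n r / |ζ - r|) ^ (-v) < resid n r := by
    rw [Real.rpow_neg hY0.le, Real.div_rpow ha0.le hδ0.le, inv_div, div_lt_iff₀ (by positivity)]
    rwa [Real.rpow_add ha0, Real.rpow_one] at hc
  have hδ1 : |ζ - r| ≤ 1 := by
    by_contra h1
    have h2 : resid n r / |ζ - r| ≤ 1 := (div_le_one hδ0).2 (by linarith)
    linarith [Real.one_le_rpow_of_pos_of_le_one_of_nonpos hY0 h2 (by linarith : -v ≤ 0)]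
  have hrB : |(r : ℝ)| ≤ B := by
    have := abs_sub ζ (ζ - r)
    rw [sub_sub_cancel] at this
    linarith
  obtain ⟨⟨P, hP, hd, hH, hval⟩, hlt⟩ := hX0 (resid n r / |ζ - r| / (2 * L))
    ((le_div_iff₀' (by linarith)).2 (hsm _ hY0 (hY.trans haε)))
  have h1 := monic_val n (by omega) r hq2 P hP hd
  have h2 := lipschitz_real n P hd r ζ B hB hrB (by linarith)
  have h3 := abs_sub_abs_le_abs_sub (aeval (r : ℝ) P) (aeval ζ P)
  rw [abs_sub_comm (r : ℝ), ← hLd] at h2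
  have h4 : L * P.supNorm * |ζ - r| ≤ L * (resid n r / |ζ - r| / (2 * L)) * |ζ - r| := by gcongr
  have h5 : L * (resid n r / |ζ - r| / (2 * L)) * |ζ - r| = resid n r / 2 := by field_simp
  have h6 : 0 < (2 * L) ^ v := by positivity
  have h7 : (resid n r / |ζ - r| / (2 * L)) ^ (-v) =
      (resid n r / |ζ - r|) ^ (-v) * (2 * L) ^ v := by
    rw [Real.div_rpow hY0.le (by linarith), Real.rpow_neg (by linarith : 0 ≤ 2 * L),
      div_inv_eq_mul]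
  rw [h7] at hlt
  have h8 : resid n r ≤ 2 * (C * (resid n r / |ζ - r| / (2 * L)) ^ (-x)) := by linarith
  have h9 := mul_le_mul_of_nonneg_right h8 h6.le
  have h10 := mul_lt_mul_of_pos_right hY h6
  linarith

lemma le_phi {n : ℕ} (hn : 2 ≤ n) {ζ : ℝ} (hζ : Irrational ζ) {x : ℝ}
    (h : 0 < x → ∃ C : ℝ, ∀ᶠ X : ℝ in atTop, ∃ P : ℤ[X], P.Monic ∧ P.natDegree ≤ n ∧
      P.supNorm ≤ X ∧ |aeval ζ P| ≤ C * X ^ (-x)) : (x : EReal) ≤ phi n ζ := by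
  rcases le_or_gt x 0 with h0 | h0
  · refine (EReal.coe_le_coe_iff.2 h0).trans (le_sSup ⟨0, ⟨le_rfl, 0, fun r _ => ?_⟩, rfl⟩)
    simpa using resid_le_one n r
  · obtain ⟨C, hC⟩ := h h0
    exact le_sSup_of _ x 0 h0 fun v v0 hv => ⟨v0.le, cond_of hn hζ v0 hv hC⟩

theorem hat_le_phi {n : ℕ} (hn : 2 ≤ n) {ζ : ℝ} (hζ : Irrational ζ) : wHatInt n ζ ≤ phi n ζ := by
  refine sSup_le ?_
  rintro _ ⟨x, hx, rfl⟩
  exact le_phi hn hζ fun _ => ⟨1, by simpa using hx⟩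

theorem star_le_phi (𝕜 : Type) [RCLike 𝕜] {n : ℕ} (hn : 2 ≤ n) {ζ : ℝ} (hζ : Irrational ζ) :
    wHatStarInt 𝕜 n ζ ≤ phi n ζ := by
  refine sSup_le ?_
  rintro _ ⟨x, hx, rfl⟩
  have hB : 1 ≤ |ζ| + 1 := by linarith [abs_nonneg ζ]
  have hL := one_le_lipC n hB
  refine le_phi hn hζ fun x0 => ⟨lipC n (|ζ| + 1), ?_⟩
  filter_upwards [hx, eventually_ge_atTop 1] with X hX hX1
  obtain ⟨α, hint, P, ⟨hirr, hroot⟩, hd, hH, hP⟩ := hX
  have hH1 := one_le_supNorm hirr.ne_zero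
  have hXx : X ^ (-x) ≤ 1 := Real.rpow_le_one_of_one_le_of_nonpos hX1 (by linarith)
  have hXx0 : 0 ≤ X ^ (-x) := by positivity
  have hinv : P.supNorm⁻¹ ≤ 1 := inv_le_one_of_one_le₀ hH1
  have hinv0 : 0 ≤ P.supNorm⁻¹ := by positivity
  have hz : ‖(ζ : 𝕜)‖ = |ζ| := RCLike.norm_ofReal ζ
  have hα : ‖α‖ ≤ |ζ| + 1 := by
    have h4 : ‖α‖ ≤ ‖(ζ : 𝕜)‖ + ‖(ζ : 𝕜) - α‖ := by
      calc ‖α‖ = ‖(ζ : 𝕜) - ((ζ : 𝕜) - α)‖ := by congr 1; ring
        _ ≤ _ := norm_sub_le _ _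
    have h5 : P.supNorm⁻¹ * X ^ (-x) ≤ 1 := by nlinarith only [hinv, hinv0, hXx, hXx0]
    linarith
  have h5 := lipschitz n P hd (ζ : 𝕜) α (|ζ| + 1) hB (by linarith) hα
  rw [hroot, sub_zero, aeval_ofReal, RCLike.norm_ofReal] at h5
  have h6 : |aeval ζ P| ≤ lipC n (|ζ| + 1) * X ^ (-x) := by
    refine h5.trans ?_
    calc lipC n (|ζ| + 1) * P.supNorm * ‖(ζ : 𝕜) - α‖
        ≤ lipC n (|ζ| + 1) * P.supNorm * (P.supNorm⁻¹ * X ^ (-x)) := by gcongr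
      _ = _ := by field_simp
  obtain ⟨R, hR⟩ := minpoly.isIntegrallyClosed_dvd hint hroot
  have hRu : IsUnit R := (hirr.isUnit_or_isUnit hR).resolve_left (minpoly.not_isUnit ℤ α)
  obtain ⟨r, hr, rfl⟩ := Polynomial.isUnit_iff.mp hRu
  rcases Int.isUnit_iff.mp hr with rfl | rfl
  · refine ⟨P, ?_, hd, hH, h6⟩
    rw [hR, map_one, mul_one]
    exact minpoly.monic hint
  · refine ⟨-P, ?_, by rwa [natDegree_neg], by rwa [supNorm_neg'], by rwa [map_neg, abs_neg]⟩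
    rw [hR, map_neg, map_one, mul_neg, mul_one, neg_neg]
    exact minpoly.monic hint

lemma le_both (𝕜 : Type) [RCLike 𝕜] {n : ℕ} (hn : 2 ≤ n) {ζ : ℝ} (hζ : Irrational ζ) {v : ℝ}
    (v0 : 0 ≤ v) (v1 : v ≤ 1) {Q : ℕ}
    (hQ : ∀ r : ℚ, Q ≤ r.den → resid n r ^ (1 + v) ≤ |ζ - r| ^ v) :
    (v : EReal) ≤ wHatStarInt 𝕜 n ζ ∧ (v : EReal) ≤ wHatInt n ζ := by
  obtain ⟨C, hC, hev⟩ := eventually_appr hn hζ v0 v1 hQ
  have hB : 1 ≤ |ζ| + 1 := by linarith [abs_nonneg ζ]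
  have hL := one_le_lipC n hB
  refine ⟨le_sSup_of _ v (v - 1) (by linarith) fun x _ hxv => ?_,
    le_sSup_of _ v (v - 1) (by linarith) fun x _ hxv => ?_⟩
  · filter_upwards [hev, ev_pow C (-v) (-x) (by linarith)] with X hX hX2
    obtain ⟨α, Q, h1, h2, h3, h4, h5, h6, h7⟩ := hX
    have hroot : aeval (α : 𝕜) Q = 0 := by
      rw [aeval_ofReal, h3]
      simp
    refine ⟨(α : 𝕜), ⟨Q, h1, hroot⟩, Q, ⟨h2, hroot⟩, h4, h5, ?_⟩
    rw [← RCLike.ofReal_sub, RCLike.norm_ofReal]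
    have hH1 := one_le_supNorm h1.ne_zero
    rw [le_inv_mul_iff₀ (by linarith), mul_comm]
    exact h7.trans hX2.le
  · filter_upwards [hev, ev_pow (lipC n (|ζ| + 1) * C) (-v) (-x) (by linarith)] with X hX hX2
    obtain ⟨α, Q, h1, -, h3, h4, h5, h6, h7⟩ := hX
    refine ⟨Q, h1, h4, h5, le_trans ?_ hX2.le⟩
    have hα : |α| ≤ |ζ| + 1 := by
      have := abs_sub ζ (ζ - α)
      rw [sub_sub_cancel] at this
      linarith
    have h8 := lipschitz_real n Q h4 ζ α (|ζ| + 1) hB (by linarith) hα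
    rw [h3, sub_zero] at h8
    refine h8.trans ?_
    rw [mul_assoc, mul_assoc, mul_comm Q.supNorm]
    gcongr

/-- Good linear polynomials give good fractions with large denominator. -/
lemma good_frac {ζ : ℝ} (hζ : Irrational ζ) {w : ℝ} (w0 : 0 < w) (hw : (w : EReal) < wExp 1 ζ)
    (Q : ℕ) : ∃ r : ℚ, Q ≤ r.den ∧ |ζ - r| ≤ (r.den : ℝ) ^ (-w - 1) := by
  obtain ⟨_, ⟨u, hu, rfl⟩, hwu⟩ := lt_sSup_iff.1 hw
  have hwu' : w < u := EReal.coe_lt_coe_iff.1 hwu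
  obtain ⟨ε, hε, hsm⟩ := small_den hζ Q
  obtain ⟨X0, hX0⟩ := eventually_atTop.1 ((tendsto_rpow_neg_atTop w0).eventually_lt_const
    (lt_min hε one_pos))
  obtain ⟨P, ⟨hP0, hd, hval⟩, hbig⟩ := hu.exists_notMem_finite (finite_bounded 1 X0)
  have hH : X0 ≤ P.supNorm := (not_le.1 fun h => hbig ⟨hd, h⟩).le
  have hH1 := one_le_supNorm hP0
  have hval' : |aeval ζ P| ≤ P.supNorm ^ (-w) :=
    hval.trans (Real.rpow_le_rpow_of_exponent_le hH1 (by linarith))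
  have hsmall := hval'.trans_lt (hX0 _ hH)
  have hev : aeval ζ P = P.coeff 1 * ζ + P.coeff 0 := by
    conv_lhs => rw [eq_X_add_C_of_natDegree_le_one hd]
    simp
  have ha : P.coeff 1 ≠ 0 := fun e => by
    have h1 : P.coeff 0 ≠ 0 := fun e' => hP0 (by
      rw [eq_X_add_C_of_natDegree_le_one hd, e, e']
      simp)
    have h2 : (1 : ℝ) ≤ |(P.coeff 0 : ℝ)| := by exact_mod_cast Int.one_le_abs h1
    rw [hev, e, Int.cast_zero, zero_mul, zero_add] at hsmall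
    linarith [min_le_right ε 1]
  have haR : (P.coeff 1 : ℝ) ≠ 0 := by exact_mod_cast ha
  set r : ℚ := Rat.divInt (-P.coeff 0) (P.coeff 1) with hr
  have hden : (r.den : ℝ) ≤ |(P.coeff 1 : ℝ)| := by
    have := Int.le_of_dvd (abs_pos.2 ha) ((dvd_abs _ _).2 (Rat.den_dvd (-P.coeff 0) (P.coeff 1)))
    exact_mod_cast this
  have hq := den_one r
  have hval2 : |aeval ζ P| = |(P.coeff 1 : ℝ)| * |ζ - r| := by
    rw [hev, ← abs_mul, hr, Rat.divInt_eq_div]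
    congr 1
    push_cast
    field_simp
    ring
  have hδ := abs_nonneg (ζ - r)
  have h1 : r.den * |ζ - r| ≤ |aeval ζ P| := by
    rw [hval2]
    gcongr
  refine ⟨r, ?_, ?_⟩
  · by_contra h
    have := hsm r (not_le.1 h).le
    nlinarith [min_le_left ε 1]
  · rw [Real.rpow_sub (by linarith), Real.rpow_one, le_div_iff₀' (by linarith)]
    refine h1.trans (hval'.trans ?_)
    exact Real.rpow_le_rpow_of_nonpos (by linarith) (hden.trans (abs_coeff_le P 1)) (by linarith)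

lemma le_one {n : ℕ} (hn : 2 ≤ n) {ζ : ℝ} (hζ : Irrational ζ)
    (hw : ((2 * n - 1 : ℝ) : EReal) ≤ wExp 1 ζ) {v : ℝ} {Q : ℕ}
    (hQ : ∀ r : ℚ, Q ≤ r.den → resid n r ^ (1 + v) ≤ |ζ - r| ^ v) : v ≤ 1 := by
  by_contra hv
  have hv := not_le.1 hv
  have n2 : (2 : ℝ) ≤ n := by exact_mod_cast hn
  have h1 : (n : ℝ) / v < n := div_lt_self (by linarith) hv
  have h2 : 0 < (n : ℝ) / v := by positivity
  have h3 : (n : ℝ) / v * v = n := by field_simp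
  obtain ⟨r, hr, hδ⟩ := good_frac hζ (w := (n / v + n) / 2 + n - 1) (by linarith)
    ((EReal.coe_lt_coe_iff.2 (by linarith)).trans_le hw) (max Q 2)
  have hq2 : 2 ≤ r.den := (le_max_right _ _).trans hr
  have hq : (1 : ℝ) < r.den := by exact_mod_cast hq2
  have h4 := Real.rpow_le_rpow (by positivity) (le_resid n (by omega) r hq2)
    (by linarith : 0 ≤ 1 + v)
  have h5 := Real.rpow_le_rpow (abs_nonneg _) hδ (by linarith : 0 ≤ v)
  have h6 := h4.trans ((hQ r ((le_max_left _ _).trans hr)).trans h5)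
  rw [one_div, ← Real.rpow_natCast, ← Real.rpow_neg (by linarith), ← Real.rpow_mul (by linarith),
    ← Real.rpow_mul (by linarith), Real.rpow_le_rpow_left_iff hq] at h6
  nlinarith

theorem main (𝕜 : Type) [RCLike 𝕜] {n : ℕ} (hn : 2 ≤ n) {ζ : ℝ} (hζ : Irrational ζ)
    (hw : ((2 * n - 1 : ℝ) : EReal) ≤ wExp 1 ζ ∨ phi n ζ ≤ 1) :
    wHatStarInt 𝕜 n ζ = phi n ζ ∧ wHatInt n ζ = phi n ζ := by
  have key : ∀ v : ℝ, 0 ≤ v → ∀ Q : ℕ,
      (∀ r : ℚ, Q ≤ r.den → resid n r ^ (1 + v) ≤ |ζ - r| ^ v) → v ≤ 1 := fun v v0 Q hQ =>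
    hw.elim (fun h => le_one hn hζ h hQ) fun h => by
      have h1 : (v : EReal) ≤ phi n ζ := le_sSup ⟨v, ⟨v0, Q, hQ⟩, rfl⟩
      exact_mod_cast h1.trans h
  refine ⟨le_antisymm (star_le_phi 𝕜 hn hζ) (sSup_le ?_),
    le_antisymm (hat_le_phi hn hζ) (sSup_le ?_)⟩
  · rintro _ ⟨v, ⟨v0, Q, hQ⟩, rfl⟩
    exact (le_both 𝕜 hn hζ v0 (key v v0 Q hQ) hQ).1
  · rintro _ ⟨v, ⟨v0, Q, hQ⟩, rfl⟩
    exact (le_both 𝕜 hn hζ v0 (key v v0 Q hQ) hQ).2

end Pool.Agent.Lib.MP_1639aa_nt.Fm
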