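import Pool.Agent.Lib.MP_1639aa_nt.Fm.Val

/-! Algebraic integers close to `ζ` from a monic polynomial plus a multiple of `q T - p`. -/

namespace Pool.Agent.Lib.MP_1639aa_nt.Fm

open Polynomial Filter

lemma from_m {n : ℕ} (hn : 2 ≤ n) {ζ B : ℝ} (hζ : |ζ| + 1 ≤ B) (p q : ℤ) (hq0 : 0 < q)
    (hpq : |(p : ℝ) / q| ≤ B) (P : ℤ[X]) (hP : P.Monic) (hd : P.natDegree = n)
    (C0 : ℝ) (hC0 : 1 ≤ C0) (hH : P.supNorm ≤ C0 * q) (m : ℤ)
    (hm : 2 * lipC n B * C0 ≤ |(m : ℝ)|)
    (hF : |aeval ζ P + m * (q * ζ - p)| ≤ q) :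
    Appr n ζ (gelC n * (1 + B) * |(m : ℝ)| * q)
      (2 * gelC n * (1 + B) * |aeval ζ P + m * (q * ζ - p)|) := by
  have hq : (0 : ℝ) < q := by exact_mod_cast hq0
  have hB : 1 ≤ B := by linarith [abs_nonneg ζ]
  have hL := one_le_lipC n hB
  have hG := one_le_gelC n
  set L := lipC n B with hLdef
  set F : ℤ[X] := P + C m * linP p q with hFdef
  have hFval : ∀ x : ℝ, aeval x F = aeval x P + m * (q * x - p) := by
    intro x
    rw [hFdef, map_add, map_mul, aeval_C, linP_aeval, algebraMap_int_eq, eq_intCast]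
  have hlt : (C m * linP p q).degree < P.degree := by
    have h1 : (C m * linP p q).natDegree ≤ 1 :=
      (natDegree_C_mul_le _ _).trans (linP_natDegree_le _ _)
    refine lt_of_le_of_lt (degree_le_of_natDegree_le h1) ?_
    rw [degree_eq_natDegree hP.ne_zero, hd]
    exact_mod_cast hn
  have hFm : F.Monic := hP.add_of_left hlt
  have hFd : F.natDegree = n := by
    rw [hFdef, natDegree_add_eq_left_of_degree_lt hlt, hd]
  have hm2 : (2 : ℝ) ≤ |(m : ℝ)| := by nlinarith only [hm, hL, hC0]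
  have hmC : C0 ≤ |(m : ℝ)| := by nlinarith only [hm, hL, hC0]
  have hFH : F.supNorm ≤ (1 + B) * |(m : ℝ)| * q := by
    apply supNorm_le_of
    intro i
    rw [hFdef, coeff_add, coeff_C_mul]
    push_cast
    have h1 := abs_coeff_le P i
    have h2 := (abs_coeff_le (linP p q) i).trans (supNorm_linP_le p q hq0 _ hB hpq)
    refine (abs_add_le _ _).trans ?_
    rw [abs_mul]
    have h3 : |(m : ℝ)| * |((linP p q).coeff i : ℝ)| ≤ |(m : ℝ)| * (B * q) := by gcongr
    have h4 : C0 * q ≤ |(m : ℝ)| * q := by gcongr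
    linarith
  set V := aeval ζ P + m * (q * ζ - p) with hV
  set η := 2 * |V| / (|(m : ℝ)| * q) with hη
  have hη0 : 0 ≤ η := by positivity
  have hη1 : η ≤ 1 := by
    rw [hη, div_le_one (by positivity)]
    nlinarith only [hF, hm2, hq]
  have hηm : |(m : ℝ)| * q * η = 2 * |V| := by
    rw [hη]
    field_simp
  have hclose : ∀ x : ℝ, |x - ζ| = η → |aeval x P - aeval ζ P| ≤ |V| := by
    intro x hx
    have hx2 : |x| ≤ B := by
      have := abs_add_le (x - ζ) ζ
      rw [sub_add_cancel] at this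
      linarith
    have h1 := lipschitz_real n P hd.le x ζ B hB hx2 (by linarith)
    rw [hx] at h1
    refine h1.trans ?_
    have h2 : L * P.supNorm * η ≤ L * (C0 * q) * η := by gcongr
    have h3 : 2 * L * C0 * (q * η) ≤ |(m : ℝ)| * (q * η) := by gcongr
    linarith
  have hp1 := abs_le.mp (hclose (ζ + η) (by rw [add_sub_cancel_left, abs_of_nonneg hη0]))
  have hp2 := abs_le.mp (hclose (ζ - η) (by rw [sub_sub_cancel_left, abs_neg, abs_of_nonneg hη0]))
  have hmem : (0 : ℝ) ∈ Set.uIcc (aeval (ζ - η) F) (aeval (ζ + η) F) := by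
    rw [hFval, hFval, Set.mem_uIcc]
    have hV1 := le_abs_self V
    have hV2 := neg_abs_le V
    rcases le_total 0 (m : ℝ) with h | h
    · left
      rw [abs_of_nonneg h] at hηm
      constructor <;> linarith [hp1.1, hp1.2, hp2.1, hp2.2]
    · right
      rw [abs_of_nonpos h] at hηm
      constructor <;> linarith [hp1.1, hp1.2, hp2.1, hp2.2]
  obtain ⟨α, hα, hroot⟩ := intermediate_value_uIcc
    (continuous_aeval_int F).continuousOn hmem
  have hαη : |ζ - α| ≤ η := by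
    rw [Set.uIcc_of_le (by linarith), Set.mem_Icc] at hα
    rw [abs_le]
    constructor <;> linarith [hα.1, hα.2]
  have hint : IsIntegral ℤ α := ⟨F, hFm, hroot⟩
  obtain ⟨R, hR⟩ := minpoly.isIntegrallyClosed_dvd hint hroot
  have hF0 : F ≠ 0 := hFm.ne_zero
  have hR0 : R ≠ 0 := by
    rintro rfl
    simp [hR] at hF0
  have hgel := gelfond n (minpoly ℤ α) R (hR ▸ hF0) (hR ▸ hFd.le)
  rw [← hR] at hgel
  have hQH : (minpoly ℤ α).supNorm ≤ gelC n * (1 + B) * |(m : ℝ)| * q := by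
    have h1 := one_le_supNorm hR0
    have h2 := (minpoly ℤ α).supNorm_nonneg
    calc (minpoly ℤ α).supNorm ≤ (minpoly ℤ α).supNorm * R.supNorm := by nlinarith only [h1, h2]
      _ ≤ gelC n * F.supNorm := hgel
      _ ≤ gelC n * ((1 + B) * |(m : ℝ)| * q) := by gcongr
      _ = _ := by ring
  refine ⟨α, minpoly ℤ α, minpoly.monic hint, minpoly.irreducible hint, minpoly.aeval ℤ α, ?_,
    hQH, hαη.trans hη1, ?_⟩
  · rw [← hFd]
    exact natDegree_le_of_dvd ⟨R, hR⟩ hF0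
  · have h2 := (minpoly ℤ α).supNorm_nonneg
    calc |ζ - α| * (minpoly ℤ α).supNorm ≤ η * (gelC n * (1 + B) * |(m : ℝ)| * q) := by gcongr
      _ = gelC n * (1 + B) * (|(m : ℝ)| * q * η) := by ring
      _ = _ := by rw [hηm]; ring

/-- A multiplier of size at least `m0` that cancels `A` up to a bounded multiple of `D`. -/
lemma cancel (A D : ℝ) (hD : D ≠ 0) (m0 : ℕ) :
    ∃ m : ℤ, (m0 : ℝ) ≤ |(m : ℝ)| ∧ |(m : ℝ)| ≤ |A| / |D| + m0 + 1 ∧
      |A + m * D| ≤ (2 * m0 + 1) * |D| := by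
  have hD' := abs_pos.2 hD
  have h1 := abs_sub_round (-A / D)
  set m1 := round (-A / D)
  have h2 : A + m1 * D = -(-A / D - m1) * D := by field_simp; ring
  have h3 : |A + m1 * D| ≤ |D| := by
    rw [h2, abs_mul, abs_neg]
    nlinarith
  have h4 : |(m1 : ℝ)| ≤ |A| / |D| + 1 := by
    have := abs_sub (-A / D) (-A / D - m1)
    rw [sub_sub_cancel, abs_div, abs_neg] at this
    linarith
  have h0 : (0 : ℝ) ≤ m0 := by positivity
  by_cases hc : (m0 : ℝ) ≤ |(m1 : ℝ)|
  · exact ⟨m1, hc, by linarith, by nlinarith⟩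
  · have h5 : |((m0 : ℤ) : ℝ)| = m0 := by rw [Int.cast_natCast, abs_of_nonneg h0]
    have h6 : 0 ≤ |A| / |D| := by positivity
    refine ⟨m0, h5.ge, by linarith, ?_⟩
    have h7 : A + ((m0 : ℤ) : ℝ) * D = A + m1 * D + (((m0 : ℤ) : ℝ) - m1) * D := by ring
    have h8 := abs_sub ((m0 : ℤ) : ℝ) m1
    rw [h7]
    refine (abs_add_le _ _).trans ?_
    rw [abs_mul]
    nlinarith [not_le.1 hc]

/-- The lower bound: approximation with exponent `v ≤ 1`. -/
lemma eventually_appr {n : ℕ} (hn : 2 ≤ n) {ζ : ℝ} (hζ : Irrational ζ) {v : ℝ} (v0 : 0 ≤ v)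
    (v1 : v ≤ 1) {Q : ℕ} (hQ : ∀ r : ℚ, Q ≤ r.den → resid n r ^ (1 + v) ≤ |ζ - r| ^ v) :
    ∃ C : ℝ, 0 < C ∧ ∀ᶠ X : ℝ in atTop, Appr n ζ X (C * X ^ (-v)) := by
  obtain ⟨B, hBd⟩ : ∃ B, B = |ζ| + 1 := ⟨_, rfl⟩
  have hB : 1 ≤ B := by linarith [abs_nonneg ζ]
  have hL := one_le_lipC n hB
  have hG := one_le_gelC n
  set L := lipC n B
  set G := gelC n
  have hC0 : 1 ≤ 1 + L * B := by nlinarith
  set C0 := 1 + L * B
  obtain ⟨m0, hm0⟩ := exists_nat_ge (2 * L * C0)
  have hLC : 1 ≤ L * C0 := by nlinarith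
  have hm01 : L * C0 ≤ m0 := by linarith
  obtain ⟨K, hK⟩ : ∃ K, K = G * (1 + B) * (2 * m0 + 2) := ⟨_, rfl⟩
  have hGB : 1 ≤ G * (1 + B) := by nlinarith
  have hK1 : 1 ≤ K := by nlinarith
  obtain ⟨ε, hε, hsm⟩ := small_den hζ (max Q (2 * m0 + 2))
  refine ⟨2 * K * K ^ v, by positivity, ?_⟩
  filter_upwards [eventually_ge_atTop K, eventually_gt_atTop (K / ε)] with X hX hX2
  have hY1 : 1 ≤ X / K := (one_le_div (by linarith)).2 hX
  have hYε : 1 / ε < X / K := by
    rw [lt_div_iff₀ (by linarith)]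
    rwa [one_div, mul_comm, ← div_eq_mul_inv]
  have hXY : X = K * (X / K) := by field_simp
  set Y := X / K
  have hpow : K ^ v * X ^ (-v) = Y ^ (-v) := by
    rw [hXY, Real.mul_rpow (by linarith) (by linarith), ← mul_assoc, ← Real.rpow_add (by linarith)]
    simp
  have hYv : 1 / Y ≤ Y ^ (-v) := by
    rw [one_div, ← Real.rpow_neg_one]
    exact Real.rpow_le_rpow_of_exponent_le hY1 (by linarith)
  have hYv1 : Y ^ (-v) ≤ 1 := Real.rpow_le_one_of_one_le_of_nonpos hY1 (by linarith)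
  rw [mul_assoc, hpow, hXY]
  obtain ⟨r, hr1, hr2⟩ := Real.exists_rat_abs_sub_le_and_den_le ζ (Nat.floor_pos.2 hY1)
  have hq := den_one r
  have hqY : (r.den : ℝ) ≤ Y := (Nat.cast_le.2 hr2).trans (Nat.floor_le (by linarith))
  have hδ0 : 0 < |ζ - r| := abs_pos.2 (sub_ne_zero.2 (hζ.ne_rat r))
  have hδ : r.den * |ζ - r| ≤ 1 / Y := by
    rw [le_div_iff₀ (by positivity)] at hr1
    rw [le_div_iff₀ (by linarith)]
    have := (Nat.lt_floor_add_one Y).le
    nlinarith [mul_pos hδ0 (by linarith : (0 : ℝ) < r.den)]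
  have hδ1 : |ζ - r| ≤ 1 / Y := by nlinarith
  have hY2 : 1 / Y ≤ 1 := by linarith
  have hbig : max Q (2 * m0 + 2) < r.den := by
    by_contra h
    have h1 := hsm r (not_lt.1 h)
    have h2 : 1 / Y < ε := by rwa [one_div_lt (by linarith) hε]
    linarith
  have hq2 : (2 * m0 + 2 : ℝ) ≤ r.den := by exact_mod_cast ((le_max_right _ _).trans hbig.le)
  have hrB : |(r : ℝ)| ≤ B := by
    have := abs_sub ζ (ζ - r)
    rw [sub_sub_cancel] at this
    linarith
  obtain ⟨P, hP, hd, hH, hval⟩ := exists_P0 n (by omega) r B hB hrB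
  have hD : |((r.den : ℤ) : ℝ) * ζ - r.num| = r.den * |ζ - r| := by
    have e : ((r.den : ℤ) : ℝ) * ζ - r.num = r.den * (ζ - r) := by
      rw [Int.cast_natCast, Rat.cast_def]
      field_simp
    rw [e, abs_mul, Nat.abs_cast]
  have hA : |aeval ζ P| ≤ resid n r + m0 * (r.den * |ζ - r|) := by
    have h1 := lipschitz_real n P hd.le ζ r B hB (by linarith) hrB
    have h2 := abs_sub_abs_le_abs_sub (aeval ζ P) (aeval (r : ℝ) P)
    have h3 : L * P.supNorm * |ζ - r| ≤ L * (C0 * r.den) * |ζ - r| := by gcongr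
    have h4 : L * C0 * (r.den * |ζ - r|) ≤ m0 * (r.den * |ζ - r|) := by gcongr
    linarith
  have main : ∀ m : ℤ, (m0 : ℝ) ≤ |(m : ℝ)| → |(m : ℝ)| * r.den ≤ (2 * m0 + 2) * Y →
      |aeval ζ P + m * (((r.den : ℤ) : ℝ) * ζ - r.num)| ≤ (2 * m0 + 2) * Y ^ (-v) →
      Appr n ζ (K * Y) (2 * K * Y ^ (-v)) := fun m h1 h2 h3 => by
    refine (from_m hn hBd.ge r.num r.den (den_pos r) (by rwa [← cast_eq]) P hP hd C0 hC0
      (by rwa [Int.cast_natCast]) m (hm0.trans h1) (h3.trans ?_)).mono ?_ ?_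
    · rw [Int.cast_natCast]
      nlinarith
    · rw [Int.cast_natCast, hK, mul_assoc, mul_assoc (G * (1 + B))]
      gcongr
    · rw [hK]
      calc _ ≤ 2 * G * (1 + B) * ((2 * m0 + 2) * Y ^ (-v)) := by gcongr
        _ = _ := by ring
  have m00 : (0 : ℝ) ≤ m0 := by positivity
  rcases le_total (resid n r) (Y * |ζ - r|) with h | h
  · obtain ⟨m, h1, h2, h3⟩ := cancel (aeval ζ P) (((r.den : ℤ) : ℝ) * ζ - r.num)
      (by rw [← abs_pos, hD]; positivity) m0
    rw [hD] at h2 h3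
    refine main m h1 ?_ (h3.trans ?_)
    · have h4 : |aeval ζ P| / (r.den * |ζ - r|) ≤ Y / r.den + m0 := by
        rw [div_le_iff₀ (by positivity)]
        have : Y / r.den * (r.den * |ζ - r|) = Y * |ζ - r| := by field_simp
        linarith
      have h5 : Y / r.den * r.den = Y := by field_simp
      have h6 : |(m : ℝ)| * r.den ≤ (Y / r.den + m0 + m0 + 1) * r.den := by
        gcongr
        linarith
      nlinarith
    · have := hδ.trans hYv
      have h0 : 0 ≤ Y ^ (-v) := by positivity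
      nlinarith
  · have h5 : |((m0 : ℤ) : ℝ)| = m0 := by rw [Int.cast_natCast, abs_of_nonneg m00]
    have ha0 : 0 < resid n r := lt_of_lt_of_le (by positivity) h
    have ha : resid n r ≤ Y ^ (-v) := by
      have h1 := hQ r ((le_max_left _ _).trans hbig.le)
      have h2 : (Y * |ζ - r|) ^ v ≤ resid n r ^ v := Real.rpow_le_rpow (by positivity) h v0
      rw [Real.mul_rpow (by linarith) hδ0.le] at h2
      rw [Real.rpow_add ha0, Real.rpow_one] at h1
      have h3 : 0 < Y ^ v := by positivity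
      have h4 : 0 < resid n r ^ v := by positivity
      rw [Real.rpow_neg (by linarith), ← one_div, le_div_iff₀ h3]
      have h6 : Y ^ v * (resid n r * resid n r ^ v) ≤ Y ^ v * |ζ - r| ^ v := by gcongr
      nlinarith
    refine main m0 h5.ge (by rw [h5]; nlinarith) ((abs_add_le _ _).trans ?_)
    rw [abs_mul, h5, hD]
    have := hδ.trans hYv
    have h0 : 0 ≤ Y ^ (-v) := by positivity
    nlinarith

end Pool.Agent.Lib.MP_1639aa_nt.Fm
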