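import Pool.Agent.Lib.MP_1639aa_nt.Roots
import Pool.Agent.Lib.MP_1639aa_nt.Fm.Defs

/-! Values of monic integer polynomials at a rational point. -/

namespace Pool.Agent.Lib.MP_1639aa_nt.Fm

open Polynomial Filter

lemma cop (r : ℚ) : IsCoprime r.num (r.den : ℤ) := by
  rw [Int.isCoprime_iff_gcd_eq_one]
  exact r.reduced

lemma den_pos (r : ℚ) : (0 : ℤ) < r.den := by exact_mod_cast r.pos

lemma den_one (r : ℚ) : (1 : ℝ) ≤ r.den := by exact_mod_cast r.pos

lemma cast_eq (r : ℚ) : (r : ℝ) = (r.num : ℝ) / ((r.den : ℤ) : ℝ) := by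
  rw [Rat.cast_def, Int.cast_natCast]

lemma resid_nonneg (n : ℕ) (r : ℚ) : 0 ≤ resid n r := by
  unfold resid
  positivity

lemma resid_le (n : ℕ) (r : ℚ) : resid n r ≤ 1 / (r.den : ℝ) ^ (n - 1) := by
  unfold resid
  gcongr
  exact (abs_sub_round _).trans (by norm_num)

lemma resid_le_one (n : ℕ) (r : ℚ) : resid n r ≤ 1 :=
  (resid_le n r).trans (div_le_one_of_le₀ (one_le_pow₀ (den_one r)) (by positivity))

lemma not_dvd (r : ℚ) (h : 2 ≤ r.den) (m : ℕ) : ¬ (r.den : ℤ) ∣ r.num ^ m := fun h1 => by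
  have h2 : IsUnit (r.den : ℤ) := ((cop r).pow_left (m := m)).isUnit_of_dvd' h1 dvd_rfl
  rcases Int.isUnit_iff.mp h2 with h4 | h4 <;> omega

lemma le_resid (n : ℕ) (hn : 1 ≤ n) (r : ℚ) (h : 2 ≤ r.den) : 1 / (r.den : ℝ) ^ n ≤ resid n r := by
  have hq := den_one r
  obtain ⟨m, rfl⟩ : ∃ m, n = m + 1 := ⟨n - 1, by omega⟩
  unfold resid
  set z := round ((r.num : ℝ) ^ (m + 1) / r.den)
  have h0 : r.num ^ (m + 1) - r.den * z ≠ 0 := fun e =>
    not_dvd r h (m + 1) ⟨z, sub_eq_zero.1 e⟩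
  have h1 : (1 : ℝ) ≤ |((r.num ^ (m + 1) - r.den * z : ℤ) : ℝ)| := by
    exact_mod_cast Int.one_le_abs h0
  have h2 : (r.num : ℝ) ^ (m + 1) / r.den - z = ((r.num ^ (m + 1) - r.den * z : ℤ) : ℝ) / r.den := by
    push_cast
    field_simp
  rw [h2, abs_div, abs_of_pos (by linarith : (0 : ℝ) < r.den), Nat.add_sub_cancel, div_div,
    ← pow_succ']
  gcongr

lemma monic_val (n : ℕ) (hn : 1 ≤ n) (r : ℚ) (h : 2 ≤ r.den) (P : ℤ[X]) (hP : P.Monic)
    (hd : P.natDegree ≤ n) : resid n r ≤ |aeval (r : ℝ) P| := by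
  have hq := den_one r
  obtain ⟨Z, hZ, hdv⟩ := eval_rat P.natDegree P le_rfl r.num r.den (den_pos r)
  rw [hP.coeff_natDegree, one_mul] at hdv
  rw [cast_eq, hZ, Int.cast_natCast]
  rcases hd.eq_or_lt with e | e
  · rw [e] at hdv ⊢
    obtain ⟨m, rfl⟩ : ∃ m, n = m + 1 := ⟨n - 1, by omega⟩
    obtain ⟨k, hk⟩ := hdv
    have h2 : (Z : ℝ) = r.num ^ (m + 1) + r.den * k := by
      exact_mod_cast (by linarith : Z = r.num ^ (m + 1) + r.den * k)
    have h3 : (Z : ℝ) / (r.den : ℝ) ^ (m + 1) =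
        ((r.num : ℝ) ^ (m + 1) / r.den - ((-k : ℤ) : ℝ)) / (r.den : ℝ) ^ m := by
      rw [h2]
      push_cast
      field_simp
      ring
    rw [h3, abs_div, abs_of_pos (by positivity : (0 : ℝ) < (r.den : ℝ) ^ m)]
    unfold resid
    rw [Nat.add_sub_cancel]
    exact div_le_div_of_nonneg_right (round_le _ _) (by positivity)
  · have hZ0 : Z ≠ 0 := by
      rintro rfl
      exact not_dvd r h P.natDegree (by simpa using hdv)
    have hZ1 : (1 : ℝ) ≤ |(Z : ℝ)| := by exact_mod_cast Int.one_le_abs hZ0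
    rw [abs_div, abs_of_pos (by positivity : (0 : ℝ) < (r.den : ℝ) ^ P.natDegree)]
    refine (resid_le n r).trans ?_
    gcongr
    omega

lemma exists_P0 (n : ℕ) (hn : 1 ≤ n) (r : ℚ) (B : ℝ) (hB : 1 ≤ B) (hr : |(r : ℝ)| ≤ B) :
    ∃ P : ℤ[X], P.Monic ∧ P.natDegree = n ∧ P.supNorm ≤ (1 + lipC n B * B) * r.den ∧
      |aeval (r : ℝ) P| = resid n r := by
  have hq1 := den_one r
  have hL := one_le_lipC n hB
  obtain ⟨m, rfl⟩ : ∃ m, n = m + 1 := ⟨n - 1, by omega⟩
  obtain ⟨R, hR1, hR2, hR3⟩ := digits r.num r.den (cop r) (den_pos r) m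
    (-round ((r.num : ℝ) ^ (m + 1) / r.den))
  rw [← cast_eq, Int.cast_natCast] at hR2
  simp only [Int.cast_natCast] at hR3
  have hdeg : R.degree < ((m + 1 : ℕ) : WithBot ℕ) :=
    lt_of_le_of_lt (degree_le_of_natDegree_le hR1) (by exact_mod_cast Nat.lt_succ_self m)
  have hmon : (X ^ (m + 1) + R).Monic := monic_X_pow_add hdeg
  have hnd : (X ^ (m + 1) + R).natDegree = m + 1 := by
    rw [natDegree_add_eq_left_of_degree_lt (by rwa [degree_X_pow]), natDegree_X_pow]
  have hval : |aeval (r : ℝ) (X ^ (m + 1) + R)| = resid (m + 1) r := by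
    unfold resid
    rw [map_add, hR2, aeval_X_pow, Nat.add_sub_cancel,
      ← abs_of_pos (by positivity : (0 : ℝ) < (r.den : ℝ) ^ m), ← abs_div,
      abs_of_pos (by positivity : (0 : ℝ) < (r.den : ℝ) ^ m)]
    congr 1
    set z := round ((r.num : ℝ) ^ (m + 1) / r.den)
    rw [Rat.cast_def, div_pow]
    push_cast
    field_simp
    ring
  refine ⟨X ^ (m + 1) + R, hmon, hnd, ?_, hval⟩
  set P := X ^ (m + 1) + R with hPdef
  have hc : ∀ i, 1 ≤ i → |(P.coeff i : ℝ)| ≤ r.den := by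
    intro i hi
    rw [hPdef, coeff_add, coeff_X_pow]
    split_ifs with him
    · rw [coeff_eq_zero_of_natDegree_lt (by omega : R.natDegree < i), add_zero]
      simpa using hq1
    · rw [zero_add]
      exact hR3 i hi
  have hLB : 1 ≤ lipC (m + 1) B * B := by nlinarith
  apply supNorm_le_of
  intro i
  rcases Nat.eq_zero_or_pos i with rfl | hi
  · set P1 := P - C (P.coeff 0) with hP1
    have hH1 : P1.supNorm ≤ r.den := by
      apply supNorm_le_of
      intro i
      rw [hP1, coeff_sub, coeff_C]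
      split_ifs with hi
      · rw [hi, sub_self]
        simp
      · rw [sub_zero]
        exact hc i (by omega)
    have hd1 : P1.natDegree ≤ m + 1 := by
      rw [hP1, natDegree_sub_C]
      exact hnd.le
    have h1 := lipschitz_real (m + 1) P1 hd1 r 0 B hB hr (by simpa using (by linarith : 0 ≤ B))
    have h2 : aeval (0 : ℝ) P1 = 0 := by
      rw [hP1, map_sub, aeval_C, ← coeff_zero_eq_aeval_zero', sub_self]
    have h3 : aeval (r : ℝ) P1 = aeval (r : ℝ) P - P.coeff 0 := by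
      rw [hP1, map_sub, aeval_C, algebraMap_int_eq, eq_intCast]
    rw [h2, h3, sub_zero, sub_zero] at h1
    have h4 : lipC (m + 1) B * P1.supNorm * |(r : ℝ)| ≤ lipC (m + 1) B * r.den * B := by
      have := P1.supNorm_nonneg
      gcongr
    have h6 := abs_le.mp (hval.le.trans ((resid_le_one _ r).trans hq1))
    have h11 := abs_le.mp (h1.trans h4)
    rw [abs_le]
    constructor <;> nlinarith [h11.1, h11.2, h6.1, h6.2]
  · refine (hc i hi).trans ?_
    nlinarith

/-- An irrational number stays away from the rationals of bounded denominator. -/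
lemma small_den {ζ : ℝ} (hζ : Irrational ζ) (Q : ℕ) :
    ∃ ε : ℝ, 0 < ε ∧ ∀ r : ℚ, r.den ≤ Q → ε ≤ |ζ - r| := by
  obtain ⟨ε, hε, h⟩ := Metric.eventually_nhds_iff.1
    (hζ.eventually_forall_le_dist_cast_rat_of_den_le Q)
  refine ⟨ε / 2, by positivity, fun r hr => ?_⟩
  have := h (y := ε / 2) (by rw [Real.dist_eq, sub_zero, abs_of_pos (by positivity)]; linarith) r hr
  rwa [Real.dist_eq] at this

end Pool.Agent.Lib.MP_1639aa_nt.Fm
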